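import Pool.Agent.Run7.h681.Plane

namespace Pool.Agent.Results.MP_024b85_co.ClosureBlue

/-- For every set `K` of at most six points and every 2-colouring of the plane (red set arbitrary,
blue its complement), there are two red points at distance 1, or there is a congruent copy of `K`
contained in the closure of the blue set. -/
theorem result (K : Finset (EuclideanSpace ℝ (Fin 2))) (hK : K.card ≤ 6)
    (red : Set (EuclideanSpace ℝ (Fin 2))) :
    (∃ p ∈ red, ∃ q ∈ red, dist p q = 1) ∨
      ∃ g : EuclideanSpace ℝ (Fin 2) ≃ᵢ EuclideanSpace ℝ (Fin 2), ∀ k ∈ K, g k ∈ closure redᶜ := by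
  by_cases h : ∃ g : EuclideanSpace ℝ (Fin 2) ≃ᵢ EuclideanSpace ℝ (Fin 2),
      ∀ k ∈ K, g k ∈ closure redᶜ
  · exact Or.inr h
  · push Not at h
    refine Or.inl (Run7.h681.plane_interior K hK red fun g => ?_)
    obtain ⟨k, hk, hg⟩ := h g
    refine ⟨k, hk, ?_⟩
    rwa [closure_compl, Set.notMem_compl_iff] at hg

end Pool.Agent.Results.MP_024b85_co.ClosureBlue
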