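import Pool.Agent.Run7.h681.Plane

namespace Pool.Agent.Results.MP_024b85_co.ClosureRed

/-- For every set `K` of at most six points and every 2-colouring of the plane (red set arbitrary,
blue its complement), the closure of the red set contains two points at distance 1, or there is a
blue congruent copy of `K`. -/
theorem result (K : Finset (EuclideanSpace ℝ (Fin 2))) (hK : K.card ≤ 6)
    (red : Set (EuclideanSpace ℝ (Fin 2))) :
    (∃ p ∈ closure red, ∃ q ∈ closure red, dist p q = 1) ∨
      ∃ g : EuclideanSpace ℝ (Fin 2) ≃ᵢ EuclideanSpace ℝ (Fin 2), ∀ k ∈ K, g k ∉ red := by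
  by_cases h : ∃ g : EuclideanSpace ℝ (Fin 2) ≃ᵢ EuclideanSpace ℝ (Fin 2), ∀ k ∈ K, g k ∉ red
  · exact Or.inr h
  · push Not at h
    exact Or.inl (Run7.h681.plane_closure K hK red h)

end Pool.Agent.Results.MP_024b85_co.ClosureRed
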